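import Mathlib

set_option autoImplicit false

/-!
# Rational spherical tetrahedra: definitions (tag RSD, problem MP_355ebd_gt)

The Gram matrix of four unit vectors `n₁, n₂, n₃, n₄` is written

    1 g a b
    g 1 c d
    a c 1 e
    b d e 1

(`g = g₁₂` is the variable, `a b c d e` are the five fixed entries
`g₁₃, g₁₄, g₂₃, g₂₄, g₃₄`).  `qA = c₃₃`, `qB = c₄₄`, `qC = c₃₄`, `qD = det`, `q11 = c₁₁`,
`q22 = c₂₂`, `q12 = c₁₂`, ... are cofactors.
-/

open Real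

namespace Pool.Agent.RSD

section Ring

variable {R : Type*} [CommRing R]

/-- cofactor `c₃₃` -/
def qA (b d g : R) : R := 1 - g ^ 2 - b ^ 2 - d ^ 2 + 2 * g * b * d
/-- cofactor `c₄₄` -/
def qB (a c g : R) : R := 1 - g ^ 2 - a ^ 2 - c ^ 2 + 2 * g * a * c
/-- cofactor `c₃₄` -/
def qC (a b c d e g : R) : R := e * g ^ 2 - (b * c + a * d) * g + (a * b + c * d - e)
/-- the determinant -/
def qD (a b c d e g : R) : R :=
  1 - g ^ 2 - a ^ 2 - b ^ 2 - c ^ 2 - d ^ 2 - e ^ 2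
    + 2 * (g * a * c + g * b * d + a * b * e + c * d * e)
    + g ^ 2 * e ^ 2 + a ^ 2 * d ^ 2 + b ^ 2 * c ^ 2
    - 2 * (g * b * c * e + g * a * d * e + a * b * c * d)
/-- derivative of `qA` in `g` -/
def qA' (b d g : R) : R := -2 * g + 2 * b * d
/-- derivative of `qB` in `g` -/
def qB' (a c g : R) : R := -2 * g + 2 * a * c
/-- derivative of `qC` in `g` -/
def qC' (a b c d e g : R) : R := 2 * e * g - (b * c + a * d)
/-- numerator `N = C (A B)' - 2 A B C'` -/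
def qN (a b c d e g : R) : R :=
  qC a b c d e g * (qA' b d g * qB a c g + qA b d g * qB' a c g)
    - 2 * (qA b d g * qB a c g) * qC' a b c d e g
/-- cofactor `c₁₁` -/
def q11 (c d e : R) : R := 1 - c ^ 2 - d ^ 2 - e ^ 2 + 2 * c * d * e
/-- cofactor `c₂₂` -/
def q22 (a b e : R) : R := 1 - a ^ 2 - b ^ 2 - e ^ 2 + 2 * a * b * e
/-- cofactor `c₁₂` -/
def q12 (a b c d e g : R) : R := -(1 - e ^ 2) * g + (a * c + b * d - b * c * e - a * d * e)
/-- cofactor `c₁₃` -/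
def q13 (a b c d e g : R) : R := g * c - g * d * e - a + b * e + a * d ^ 2 - b * c * d
/-- cofactor `c₁₄` -/
def q14 (a b c d e g : R) : R := -(g * c * e) + g * d + a * e - b - a * c * d + b * c ^ 2
/-- cofactor `c₂₃` -/
def q23 (a b c d e g : R) : R := -c + d * e + g * a - g * b * e - a * b * d + b ^ 2 * c
/-- cofactor `c₂₄` -/
def q24 (a b c d e g : R) : R := c * e - d - g * a * e + g * b + a ^ 2 * d - a * b * c

end Ring

/-- the five fixed Gram entries `g₁₃, g₁₄, g₂₃, g₂₄, g₃₄` -/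
structure P5 where
  /-- `g₁₃` -/
  a : ℝ
  /-- `g₁₄` -/
  b : ℝ
  /-- `g₂₃` -/
  c : ℝ
  /-- `g₂₄` -/
  d : ℝ
  /-- `g₃₄` -/
  e : ℝ

namespace P5

/-- `c₃₃` -/
def A (f : P5) (g : ℝ) : ℝ := qA f.b f.d g
/-- `c₄₄` -/
def B (f : P5) (g : ℝ) : ℝ := qB f.a f.c g
/-- `c₃₄` -/
def C (f : P5) (g : ℝ) : ℝ := qC f.a f.b f.c f.d f.e g
/-- determinant -/
def D (f : P5) (g : ℝ) : ℝ := qD f.a f.b f.c f.d f.e g
/-- the numerator -/
def N (f : P5) (g : ℝ) : ℝ := qN f.a f.b f.c f.d f.e g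

/-- positive definiteness of the Gram matrix (leading minors in the order 3, 4, 1, 2) -/
def PD (f : P5) (g : ℝ) : Prop := f.e ^ 2 < 1 ∧ 0 < q22 f.a f.b f.e ∧ 0 < f.D g

/-- `dF/dθ` (edge length divided by `4π²`), as a function of `g = - cos θ` -/
noncomputable def Fp (f : P5) (g : ℝ) : ℝ :=
  (π / 2 - Real.arctan (f.C g / √((1 - g ^ 2) * f.D g))) / (4 * π ^ 2)

/-- `d²F/dθ²`, as a function of `g = - cos θ` -/
noncomputable def Fpp (f : P5) (g : ℝ) : ℝ :=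
  f.N g / (8 * π ^ 2 * (f.A g * f.B g) * √(f.D g))

/-- the quadratic form `zᵀ C z` of the cofactor matrix -/
def Q (f : P5) (g z1 z2 z3 z4 : ℝ) : ℝ :=
  q11 f.c f.d f.e * z1 ^ 2 + q22 f.a f.b f.e * z2 ^ 2 + f.A g * z3 ^ 2 + f.B g * z4 ^ 2
    + 2 * q12 f.a f.b f.c f.d f.e g * z1 * z2 + 2 * q13 f.a f.b f.c f.d f.e g * z1 * z3
    + 2 * q14 f.a f.b f.c f.d f.e g * z1 * z4 + 2 * q23 f.a f.b f.c f.d f.e g * z2 * z3
    + 2 * q24 f.a f.b f.c f.d f.e g * z2 * z4 + 2 * f.C g * z3 * z4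

/-- first component of `C z` (half of `∂Q/∂z₁`) -/
def Y1 (f : P5) (g z1 z2 z3 z4 : ℝ) : ℝ :=
  q11 f.c f.d f.e * z1 + q12 f.a f.b f.c f.d f.e g * z2 + q13 f.a f.b f.c f.d f.e g * z3
    + q14 f.a f.b f.c f.d f.e g * z4

/-- second component of `C z` (half of `∂Q/∂z₂`) -/
def Y2 (f : P5) (g z1 z2 z3 z4 : ℝ) : ℝ :=
  q12 f.a f.b f.c f.d f.e g * z1 + q22 f.a f.b f.e * z2 + q23 f.a f.b f.c f.d f.e g * z3
    + q24 f.a f.b f.c f.d f.e g * z4

/-- the Gaussian density with covariance the Gram matrix -/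
noncomputable def dens (f : P5) (g z1 z2 z3 z4 : ℝ) : ℝ :=
  Real.exp (-(f.Q g z1 z2 z3 z4 / (2 * f.D g))) / (4 * π ^ 2 * √(f.D g))

/-- the derivative of the density in `g` (and the mixed derivative in `z₁, z₂`) -/
noncomputable def dens' (f : P5) (g z1 z2 z3 z4 : ℝ) : ℝ :=
  f.dens g z1 z2 z3 z4 *
    (f.Y1 g z1 z2 z3 z4 * f.Y2 g z1 z2 z3 z4 / (f.D g) ^ 2
      - q12 f.a f.b f.c f.d f.e g / f.D g)

/-- the closed positive orthant of `ℝ⁴`; a point is written `((z₃, z₄), (z₁, z₂))` -/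
def Orth : Set ((ℝ × ℝ) × (ℝ × ℝ)) :=
  (Set.Ici 0 ×ˢ Set.Ici 0) ×ˢ (Set.Ici 0 ×ˢ Set.Ici 0)

/-- the orthant probability -/
noncomputable def Fr (f : P5) (g : ℝ) : ℝ :=
  ∫ w in Orth, f.dens g w.2.1 w.2.2 w.1.1 w.1.2

end P5

/-- `ℝ⁴` -/
abbrev E4 : Type := EuclideanSpace ℝ (Fin 4)

/-- the cone cut out by four half spaces -/
def cone (n : Fin 4 → E4) : Set E4 := {x | ∀ i : Fin 4, 0 ≤ inner ℝ (n i) x}

/-- the fraction of the unit ball (equivalently of `S³`) occupied by the cone -/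
noncomputable def volFrac (n : Fin 4 → E4) : ℝ :=
  (MeasureTheory.volume {x : E4 | ‖x‖ ≤ 1 ∧ ∀ i : Fin 4, 0 ≤ inner ℝ (n i) x}).toReal
    / (MeasureTheory.volume (Metric.closedBall (0 : E4) 1)).toReal

/-- `n` consists of unit vectors whose Gram matrix has the entries `g` and `f` -/
structure IsGram (f : P5) (g : ℝ) (n : Fin 4 → E4) : Prop where
  /-- unit vectors -/
  unit : ∀ i, ‖n i‖ = 1
  /-- `g₁₂` -/
  h01 : inner ℝ (n 0) (n 1) = g
  /-- `g₁₃` -/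
  h02 : inner ℝ (n 0) (n 2) = f.a
  /-- `g₁₄` -/
  h03 : inner ℝ (n 0) (n 3) = f.b
  /-- `g₂₃` -/
  h12 : inner ℝ (n 1) (n 2) = f.c
  /-- `g₂₄` -/
  h13 : inner ℝ (n 1) (n 3) = f.d
  /-- `g₃₄` -/
  h23 : inner ℝ (n 2) (n 3) = f.e

/-- `- cos (π j / N)` -/
noncomputable def ang (N j : ℕ) : ℝ := -Real.cos (π * j / N)

/-- the five fixed entries of the Gram matrix with dihedral angles `π b e / N` -/
noncomputable def par (N : ℕ) (b : Fin 5 → ℕ) : P5 :=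
  ⟨ang N (b 0), ang N (b 1), ang N (b 2), ang N (b 3), ang N (b 4)⟩

/-- `n` is linearly independent and the interior dihedral angles of the spherical tetrahedron cut
out by the half spaces `⟪n i, x⟫ ≥ 0` are `π a e / N`, the six edges (pairs of faces) being
numbered `0 = {0,1}, 1 = {0,2}, 2 = {0,3}, 3 = {1,2}, 4 = {1,3}, 5 = {2,3}`. -/
def HasAngles (N : ℕ) (a : Fin 6 → ℕ) (n : Fin 4 → E4) : Prop :=
  LinearIndependent ℝ n ∧
  π - InnerProductGeometry.angle (n 0) (n 1) = π * a 0 / N ∧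
  π - InnerProductGeometry.angle (n 0) (n 2) = π * a 1 / N ∧
  π - InnerProductGeometry.angle (n 0) (n 3) = π * a 2 / N ∧
  π - InnerProductGeometry.angle (n 1) (n 2) = π * a 3 / N ∧
  π - InnerProductGeometry.angle (n 1) (n 3) = π * a 4 / N ∧
  π - InnerProductGeometry.angle (n 2) (n 3) = π * a 5 / N

/-- the 6-tuples of level `N` realised by a spherical tetrahedron -/
def allT (N : ℕ) : Set (Fin 6 → Fin N) :=
  {a | ∃ n : Fin 4 → E4, HasAngles N (fun e => (a e : ℕ)) n}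

/-- the 6-tuples of level `N` realised by a spherical tetrahedron whose volume is `p/q` times the
volume of `S³` with `1 ≤ q ≤ B` -/
def badT (N : ℕ) (B : ℝ) : Set (Fin 6 → Fin N) :=
  {a | ∃ n : Fin 4 → E4, HasAngles N (fun e => (a e : ℕ)) n ∧
    ∃ p q : ℕ, 1 ≤ q ∧ (q : ℝ) ≤ B ∧ volFrac n = (p : ℝ) / q}

end Pool.Agent.RSD
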